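import Pool.Agent.V1153.PK.Str

/-!
# Hyperbolic embedding and the strata of the boundary

`F l t` and `Q k t` (`k` in a finite set `κ`) are continuous families of forms in `n + 1` variables,
parametrised by a topological space `T` with countable neighbourhood bases (for a single variety take
a point). `V_t` is the projective variety with the equations `fib F t = {F l t}`, `X_t` is the
complement of all the `Q k t = 0` in `V_t`, and for `J ⊆ κ` the stratum `V_{t,J}` is the set of the
points of `V_t` at which exactly the forms `Q k t` with `k ∈ J` vanish, so that `X_t = V_{t,∅}`. We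
consider holomorphic maps from the unit disc to `X_t`.

`DAlgQ (fib F t) (∏ k, Q k t) m`: the maps all of whose quotients of homogeneous coordinates are
algebraic functions which satisfy an equation of bidegree at most `(m, m)`.

`DCxQ (fib F t) (∏ k, Q k t) s r e d`: the maps of complexity at most `(s, r, e, d)`: in some open set
the homogeneous coordinates and `1 / ∏ k, Q k t` of them, up to a common factor, are polynomials of
degree at most `e` in each of the functions `z`, `1 / q(z)` and the entries of the solutions
`y_1, ..., y_s` of iterated systems of `r` linear differential equations, and `q` is a polynomial of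
degree at most `d`.

`LocHyp t0 𝒟`: for all `t` near `t0` the Fubini-Study norms of the derivatives at the centre of the
discs in `𝒟 t` are at most `C`, and the Kobayashi pseudodistance given by the discs in `𝒟 t` is at
least `c > 0` times the distance in the projective space (so `X_t` is hyperbolically embedded as far
as the discs in `𝒟 t` are concerned), with the same constants `C` and `c`.
-/

set_option autoImplicit false

namespace Pool.Agent.Results.MP_c69980_ag.HyperbolicEmbedding

open MvPolynomial Filter Topology Pool.Agent.V1153.UG Pool.Agent.V1153.KB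

/-- **(1)** For all `D` and `(s, r, e, d)` there is `N` such that for all families of degrees at most
`D`: if for all `t` near `t0` there are no nonconstant maps of degree at most `N` from the punctured
line to `X_t`, and for all `J ≠ ∅` there are no nonconstant maps of degree at most `N` from the affine
line to the stratum `V_{t0,J}`, then `X_t`, `t` near `t0`, is locally uniformly hyperbolically embedded
for the discs of complexity `(s, r, e, d)`. **(2)** If the strata `V_{t,J}`, `J ≠ ∅`, contain no curves
of the affine line, then the following are equivalent: for all `t` there are no nonconstant maps from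
the punctured line to `X_t`; for all `(s, r, e, d)` the `X_t` are locally uniformly hyperbolically
embedded for the discs of complexity `(s, r, e, d)`; for all `(s, r, e, d)` and each `t` the
derivatives of these discs in `X_t` are bounded; for all `(s, r, e, d)` and each `t` the pseudodistance
given by them is at least a multiple of the distance in the projective space. **(3)** If no stratum
`V_{t0,J}` contains curves of the affine line of degree at most `(n + 1) m`, then the `X_t`, `t` near
`t0`, are uniformly hyperbolically embedded for the algebraic discs of bidegree at most `(m, m)`, and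
contain no curves of the affine line of degree at most `m`. **(4)** If all integral closed
subvarieties with more than one point of all strata `V_{t,J}` are of log general type, then all the
properties in (2) hold. -/
theorem result (n : ℕ) :
    (∀ D s r e d : ℕ, ∃ N, ∀ (T : Type) [TopologicalSpace T] [FirstCountableTopology T]
      (ι κ : Type) [Fintype κ] [DecidableEq κ] (F : ι → T → MvPolynomial (Fin (n + 1)) ℂ)
      (Q : κ → T → MvPolynomial (Fin (n + 1)) ℂ) (a : κ → ℕ), (∀ l, ∃ b ≤ D, CFam b (F l)) →
        (∀ l, CFam (a l) (Q l)) → ∑ l, a l ≤ D → ∀ t0 : T,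
          (∀ᶠ t in 𝓝 t0, ∀ P, ¬ GmBdd (Ideal.span (fib F t)) (∏ l, Q l t) N P) →
          (∀ J : Finset κ, J.Nonempty → ∀ P,
            ¬ LineC (strE (fib F t0) (fun l => Q l t0) J) (strQ (fun l => Q l t0) J) N P) →
          LocHyp t0 fun t => DCxQ (fib F t) (∏ l, Q l t) s r e d) ∧
    ∀ (T : Type) [TopologicalSpace T] [FirstCountableTopology T]
      (ι κ : Type) [Fintype κ] [DecidableEq κ] (F : ι → T → MvPolynomial (Fin (n + 1)) ℂ)
      (Q : κ → T → MvPolynomial (Fin (n + 1)) ℂ) (a : κ → ℕ) (D : ℕ),
      (∀ l, ∃ b ≤ D, CFam b (F l)) → (∀ l, CFam (a l) (Q l)) →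
        ((∀ (t : T) (J : Finset κ), J.Nonempty → ∀ N P,
            ¬ LineC (strE (fib F t) (fun l => Q l t) J) (strQ (fun l => Q l t) J) N P) →
          List.TFAE [∀ t N P, ¬ GmBdd (Ideal.span (fib F t)) (∏ l, Q l t) N P,
            ∀ s r e d t0, LocHyp t0 fun t => DCxQ (fib F t) (∏ l, Q l t) s r e d,
            ∀ s r e d t, ∃ C : ℝ, ∀ f, DCxQ (fib F t) (∏ l, Q l t) s r e d f → fs f 0 ≤ C,
            ∀ s r e d t, ∃ c : ℝ, 0 < c ∧ KobGe c (DCxQ (fib F t) (∏ l, Q l t) s r e d)]) ∧
        (∀ t0 m, (∀ (J : Finset κ) P, ¬ LineC (strE (fib F t0) (fun l => Q l t0) J)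
            (strQ (fun l => Q l t0) J) ((n + 1) * m) P) →
          LocHyp t0 (fun t => DAlgQ (fib F t) (∏ l, Q l t) m) ∧
          ∀ᶠ t in 𝓝 t0, ∀ P, ¬ LineC (fib F t) (∏ l, Q l t) m P) ∧
        ((∀ (t : T) (J : Finset κ), AllLog (strE (fib F t) (fun l => Q l t) J)
            (strQ (fun l => Q l t) J) (∑ l ∈ Jᶜ, a l)) →
          (∀ (t : T) (J : Finset κ), ∀ N P,
            ¬ LineC (strE (fib F t) (fun l => Q l t) J) (strQ (fun l => Q l t) J) N P) ∧
          ∀ s r e d t0, LocHyp t0 fun t => DCxQ (fib F t) (∏ l, Q l t) s r e d) := by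
  refine ⟨fun D s r e d => str_cx n D s r e d, fun T _ _ ι κ _ _ F Q a D hF hQ => ?_⟩
  have hE : ∀ t, ∀ H ∈ fib F t, ∃ b, H.IsHomogeneous b := by
    rintro t _ ⟨l, rfl⟩
    obtain ⟨b, -, hb⟩ := hF l
    exact ⟨b, hb.hom t⟩
  have hQh : ∀ t, (∏ l, Q l t).IsHomogeneous (∑ l, a l) := fun t =>
    MvPolynomial.IsHomogeneous.prod _ _ _ fun l _ => (hQ l).hom t
  have key : (∀ (t : T) (J : Finset κ), J.Nonempty → ∀ N P,
      ¬ LineC (strE (fib F t) (fun l => Q l t) J) (strQ (fun l => Q l t) J) N P) →
      (∀ t N P, ¬ GmBdd (Ideal.span (fib F t)) (∏ l, Q l t) N P) →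
      ∀ s r e d t0, LocHyp t0 fun t => DCxQ (fib F t) (∏ l, Q l t) s r e d := by
    intro hno hgm s r e d t0
    obtain ⟨N, hN⟩ := str_cx n (max D (∑ l, a l)) s r e d
    refine hN T ι κ F Q a (fun l => ?_) hQ (le_max_right _ _) t0
      (Eventually.of_forall fun t P => hgm t N P) fun J hJ P => hno t0 J hJ N P
    obtain ⟨b, hb, h1⟩ := hF l
    exact ⟨b, hb.trans (le_max_left _ _), h1⟩
  refine ⟨fun hno => ?_, fun t0 m hno => ?_, fun hlog => ?_⟩
  · tfae_have 1 → 2 := key hno
    tfae_have 2 → 3 := by
      intro h s r e d t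
      obtain ⟨C, c, -, h1⟩ := h s r e d t
      exact ⟨C, h1.self_of_nhds.1⟩
    tfae_have 2 → 4 := by
      intro h s r e d t
      obtain ⟨C, c, hc, h1⟩ := h s r e d t
      exact ⟨c, hc, h1.self_of_nhds.2⟩
    tfae_have 3 → 1 := fun h t N P => no_gm_of (hE t) (hQh t) (Or.inl (h _ _ _ _ t)) P
    tfae_have 4 → 1 := fun h t N P => no_gm_of (hE t) (hQh t) (Or.inr (h _ _ _ _ t)) P
    tfae_finish
  · obtain ⟨C, hC⟩ := str_alg m (F := F) (fun l => by
      obtain ⟨b, -, hb⟩ := hF l
      exact ⟨b, hb⟩) (Q := Q) (fun l => ⟨a l, hQ l⟩) t0 hno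
    refine ⟨⟨(n + 1) * C, kc n C, kc_pos n C, ?_⟩, hC.mono fun t ht => ht.1⟩
    exact hC.mono fun t ht => ht.2 _ fun f hf => hf
  · have hgm : ∀ (t : T) (J : Finset κ) N P,
        ¬ GmBdd (Ideal.span (strE (fib F t) (fun l => Q l t) J)) (strQ (fun l => Q l t) J) N P := by
      intro t J N P
      refine no_gm_of_log (q := ∑ l ∈ Jᶜ, a l) ?_ ?_ (hlog t J) N P
      · rintro H (hH | ⟨l, -, rfl⟩)
        · exact hE t H hH
        · exact ⟨a l, (hQ l).hom t⟩
      · exact MvPolynomial.IsHomogeneous.prod _ _ _ fun l _ => (hQ l).hom t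
    have hline : ∀ (t : T) (J : Finset κ), ∀ N P,
        ¬ LineC (strE (fib F t) (fun l => Q l t) J) (strQ (fun l => Q l t) J) N P :=
      fun t J N P hP => hgm t J N P hP.gm
    refine ⟨hline, key (fun t J _ => hline t J) fun t N P => ?_⟩
    have h1 := hgm t ∅ N P
    rwa [strE_empty, strQ_empty] at h1

end Pool.Agent.Results.MP_c69980_ag.HyperbolicEmbedding
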