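import Pool.Agent.V1153.FB.Mor

/-!
# The extended Lang-Vojta conjecture for curves and morphisms of bounded complexity

`U` is the complement of the hypersurface `Q = 0` in the integral closed subvariety of projective
`n`-space over the complex numbers with the ideal `I`. Theorem: the following are equivalent.
1. `U` is not covered by curves of the punctured line;
2. (`EntireThin`, condition 2 for curves of bounded complexity) for each `(s, r, e, d)` one proper
   closed subset of `U` contains all nonconstant entire curves of complexity at most `(s, r, e, d)`;
3. (`PtUniform`, condition 3 for families of bounded complexity) for each `(s, r, e)` there are a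
   proper closed subset `Δ` of `U` and a number `B` such that for all pointed varieties `(Y, y)` and
   all `x` outside of `Δ` every family of morphisms `(Y, y) → (U, x)` given by iterated recurrences of
   type `(s, r, e)` has at most `B` members;
4. (`MorUniform`, condition 5 for families of bounded complexity) for each `(s, r, e)` there are a
   proper closed subset `Δ` of `U` and a number `B` such that for all varieties `Y` every family of
   rational maps `Y ⇢ U` given by iterated recurrences of type `(s, r, e)` has at most `B` members
   whose image is not contained in `Δ`.
They hold if one of the conditions 2-5 of the problem holds: if all entire curves in `U` are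
contained in one proper closed subset (`PseudoBrody`), if for some proper closed subset `Δ` there are
only finitely many morphisms `(ℂˣ, 1) → (U, x)` for each `x` outside of `Δ` (`PseudoGeometric`), if
`U` is of log general type, and if `U` is bounded modulo `Δ`, already for `C = ℂˣ`
(`BoundedGm`).
-/

set_option autoImplicit false

namespace Pool.Agent.Results.MP_c69980_ag.RestrictedConditions

open MvPolynomial Pool.Agent.V1153.FB Pool.Agent.V1153.UG
open Pool.Agent.TH143.GT (FunField)
open Pool.Agent.W602.GT (LogGeneralType)
open Pool.Agent.W603.GR (OffQ)

/-- **The restricted forms of the conditions are equivalent.** -/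
theorem result (n : ℕ) (I : Ideal (MvPolynomial (Fin (n + 1)) ℂ)) (hI : I.IsPrime)
    (Q : MvPolynomial (Fin (n + 1)) ℂ) (q : ℕ) (hQ : Q.IsHomogeneous q) :
    List.TFAE [¬ GmRuled I Q, EntireThin I Q, PtUniform I Q, MorUniform I Q] ∧
      (PseudoBrody I Q ∨ PseudoGeometric I Q ∨ (∃ (K : Type) (_ : Field K) (_ : Algebra ℂ K) (w : ℕ)
        (y : Fin (n + 1) → K), FunField I Q K w y ∧ LogGeneralType ℂ K w (OffQ Q q y)) ∨
        BoundedGm I Q → ¬ GmRuled I Q) := by
  obtain ⟨h1, h2⟩ := mor_tfae hI hQ
  refine ⟨h1, fun h => ?_⟩
  rcases h with h | h | ⟨K, _, _, w, y, hy, hL⟩ | h
  · exact h2 (Or.inl h)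
  · exact h2 (Or.inr (Or.inl h))
  · exact not_ruled_of_lgt hQ hy hL
  · exact h2 (Or.inr (Or.inr h))

end Pool.Agent.Results.MP_c69980_ag.RestrictedConditions
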