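import Mathlib
import Pool.Agent.V11197.SM.Cl
import Pool.Agent.V1153.FB.Mor

/-!
MP_c69980_ag, Q1: points and maps that are combinations of given ones with multipliers of small
height.

Let `U` be an integral affine variety over the complex numbers, given by polynomials of degree at
most `d` in `n` variables. We consider the following properties.

(1) `U` is not dominated by punctured lines.

(2) For every dominant morphism `g : W → U` from an integral affine variety `W`, given by polynomials
of degree at most `δ` (for instance the identity map of `U`), and every `r` there is a proper closed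
subset `Δ` of `W` such that for ALL fields `L ⊇ ℂ` (for instance the function field of a variety `Y`;
then points over `L` are rational maps from `Y`) and ALL vectors `v_1, …, v_r` over `L` the points
`x = t_1 v_1 + … + t_r v_r` of `W(L)` outside of `Δ`, where the `t_j` are algebraic numbers of
ARBITRARY degree with `h(1 : t_1 : … : t_r) < eps(d, δ, r)`, have at most `B(d, δ, r)` different
images in `U(L)`. Here `eps` and `B` are explicit and depend on the three numbers only.

(3) For every `r` there is a proper closed subset `Δ` of `U` such that for all integers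
`e_1, …, e_r` and all vectors `V_1, …, V_r` over `ℂ` only finitely many points
`ζ ^ e_1 V_1 + … + ζ ^ e_r V_r`, `ζ` a root of unity, are on `U` and not on `Δ`.

These properties are equivalent. They hold if one of the conditions 2-5 of the problem holds: if all
entire curves in `U` are contained in one proper closed subset (`PseudoBrody`), if for some proper
closed subset `Δ` there are only finitely many morphisms `(ℂˣ, 1) → (U, x)` for each `x` outside of
`Δ` (`PseudoGeometric`), if `U` is of log general type, and if `U` is bounded modulo `Δ`, already for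
`C = ℂˣ` (`BoundedGm`).
-/

set_option autoImplicit false

namespace Pool.Agent.Results.MP_c69980_ag.SmallMultiplierMaps

open MvPolynomial Pool.Agent.V1153.UG Pool.Agent.V1153.FB Pool.Agent.V11197.SM
open Pool.Agent.Helper259.AbsHt Pool.Agent.Y215.SP
open Pool.Agent.Y215.AF (GmUniruled homC exists_hyperA)
open Pool.Agent.W235.RM (hmg hmg_homog hmg_eval)
open Pool.Agent.TH143.GT (FunField)
open Pool.Agent.W602.GT (LogGeneralType)
open Pool.Agent.W603.GR (OffQ)

/-- the bound for the heights of the multipliers -/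
noncomputable def eps (d δ r : ℕ) : ℝ := epsn ((d + 1) ^ ((r + 1) ^ δ + 1)) / d / (δ + 1)

/-- the bound for the number of images -/
noncomputable def B (d δ r : ℕ) : ℕ :=
  2 ^ (r + 1) ^ δ * M0 ((d + 1) ^ ((r + 1) ^ δ + 1)) d ((r + 1) ^ δ + 1)

theorem eps_pos (d δ r : ℕ) (hd : 1 ≤ d) : 0 < eps d δ r :=
  div_pos (div_pos (epsn_pos _ (Nat.one_le_pow _ _ (by omega))) (by exact_mod_cast hd))
    (by positivity)

/-- The images, under the map given by the polynomials `g`, of the points `∑ t_j v_j` over `L`, for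
algebraic numbers `t_j` such that `(1 : t_1 : … : t_r)` has height less than `ε`, on the affine
variety with the ideal `E` and outside of `G = 0`. -/
def imgSmall {m n r : ℕ} {L : Type} [Field L] [Algebra ℂ L] (ι : Qbar →+* L)
    (E : Ideal (MvPolynomial (Fin m) ℂ)) (g : Fin n → MvPolynomial (Fin m) ℂ)
    (G : MvPolynomial (Fin m) ℂ) (ε : ℝ) (v : Fin r → Fin m → L) : Set (Fin n → L) :=
  {y | ∃ t : Fin r → Qbar, absLogHeight (Fin.cons 1 t : Fin (r + 1) → Qbar) < ε ∧
    (∀ H ∈ E, aeval (fun a => ∑ j, ι (t j) * v j a) H = 0) ∧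
    aeval (fun a => ∑ j, ι (t j) * v j a) G ≠ 0 ∧
    y = fun i => aeval (fun a => ∑ j, ι (t j) * v j a) (g i)}

/-- For every dominant morphism from an integral affine variety `W` to the affine variety with the
ideal `I`, given by polynomials `g` of degree at most `δ`, and every `r` there is a proper closed
subset of `W` such that the points outside of it, over all fields, which are combinations of `r`
vectors with multipliers of height less than `eps d δ r` have at most `B d δ r` images. -/
def SmallImages (d : ℕ) {n : ℕ} (I : Ideal (MvPolynomial (Fin n) ℂ)) : Prop :=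
  ∀ (m : ℕ) (E : Ideal (MvPolynomial (Fin m) ℂ)), E.IsPrime →
    ∀ (g : Fin n → MvPolynomial (Fin m) ℂ) (δ : ℕ), (∀ i, (g i).totalDegree ≤ δ) →
      (∀ H : MvPolynomial (Fin n) ℂ, aeval g H ∈ E ↔ H ∈ I) →
      ∀ r : ℕ, ∃ G : MvPolynomial (Fin m) ℂ, G ∉ E ∧
        ∀ (L : Type) [Field L] [Algebra ℂ L] (ι : Qbar →+* L) (v : Fin r → Fin m → L),
          (imgSmall ι E g G (eps d δ r) v).encard ≤ B d δ r

/-- For every `r` there is a proper closed subset of the affine variety with the ideal `I` such that
for all integers `e_j` and all complex vectors `V_j` only finitely many points `∑ ζ ^ e_j V_j`, `ζ` a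
root of unity, are on the variety and outside of the closed subset. -/
def RootsFinite {n : ℕ} (I : Ideal (MvPolynomial (Fin n) ℂ)) : Prop :=
  ∀ r : ℕ, ∃ G : MvPolynomial (Fin n) ℂ, G ∉ I ∧
    ∀ (e : Fin r → ℤ) (V : Fin r → Fin n → ℂ),
      {x : Fin n → ℂ | ∃ z : ℂ, (∃ q : ℕ, 0 < q ∧ z ^ q = 1) ∧
        (∀ a, x a = ∑ j, z ^ e j * V j a) ∧ (∀ H ∈ I, eval x H = 0) ∧ eval x G ≠ 0}.Finite

theorem ev {s : ℕ} (u : Fin s → ℂ) (H : MvPolynomial (Fin s) ℂ) : eval u H = aeval u H := by
  rw [← MvPolynomial.coe_aeval_eq_eval]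
  rfl

theorem smallImages_of {n N : ℕ} (F : Fin N → MvPolynomial (Fin n) ℂ) (d : ℕ) (hd : 1 ≤ d)
    (hF : ∀ i, (F i).totalDegree ≤ d) (hI : (Ideal.span (Set.range F)).IsPrime)
    (hnu : ¬ GmUniruled (Ideal.span (Set.range F))) : SmallImages d (Ideal.span (Set.range F)) := by
  classical
  intro m E hE g δ hg hgE r
  obtain ⟨G, hG, hall⟩ := exists_hyperA (Set.range F) hI hnu d hd (by
    rintro _ ⟨i, rfl⟩
    exact hF i) ((r + 1) ^ δ)
  refine ⟨aeval g G, fun h1 => hG ((hgE G).1 h1), fun L _ _ ι v => ?_⟩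
  choose w hw using fun i => polar_aff (g i) (hg i) L v
  let e : (Fin δ → Fin (r + 1)) ≃ Fin ((r + 1) ^ δ) := finFunctionFinEquiv
  let w' : Fin ((r + 1) ^ δ) → Fin n → L := fun a i => w i (e.symm a)
  refine (Set.encard_le_encard ?_).trans (card_affOff F d hd hF G (fun c l hz hc => ?_) ι w')
  · rintro y ⟨t, ht, hE0, hG0, rfl⟩
    have hcomp : ∀ H : MvPolynomial (Fin n) ℂ,
        aeval (fun i => aeval (fun a => ∑ j, ι (t j) * v j a) (g i)) H =
        aeval (fun a => ∑ j, ι (t j) * v j a) (aeval g H) := by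
      intro H
      rw [← AlgHom.comp_apply]
      congr 1
      ext i
      simp
    refine ⟨fun a => ∏ b, (Fin.cons 1 t : Fin (r + 1) → Qbar) (e.symm a b), ?_, fun i => ?_,
      fun i => ?_, ?_⟩
    · have h1 := absLogHeight_comp_le
        (Fin.cons (fun _ => 0) (fun a => e.symm a) : Fin ((r + 1) ^ δ + 1) → (Fin δ → Fin (r + 1)))
        (fun f : Fin δ → Fin (r + 1) => ∏ b, (Fin.cons 1 t : Fin (r + 1) → Qbar) (f b))
      have h2 : (Fin.cons 1 (fun a => ∏ b, (Fin.cons 1 t : Fin (r + 1) → Qbar) (e.symm a b)) :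
          Fin ((r + 1) ^ δ + 1) → Qbar) =
          (fun f : Fin δ → Fin (r + 1) => ∏ b, (Fin.cons 1 t : Fin (r + 1) → Qbar) (f b)) ∘
            (Fin.cons (fun _ => 0) (fun a => e.symm a) :
              Fin ((r + 1) ^ δ + 1) → (Fin δ → Fin (r + 1))) := by
        funext a
        refine Fin.cases ?_ (fun a => ?_) a
        · simp
        · simp
      rw [h2]
      refine lt_of_le_of_lt (h1.trans (height_prod _ (cons_ne t) δ)) ?_
      have h3 : absLogHeight (Fin.cons 1 t : Fin (r + 1) → Qbar) * (δ + 1) <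
          epsn ((d + 1) ^ ((r + 1) ^ δ + 1)) / d := by
        have h4 : (0 : ℝ) < δ + 1 := by positivity
        rw [← lt_div_iff₀ h4]
        exact ht
      have h5 := absLogHeight_nonneg (Fin.cons 1 t : Fin (r + 1) → Qbar)
      nlinarith
    · show aeval (fun a => ∑ j, ι (t j) * v j a) (g i) = _
      rw [hw i fun j => ι (t j), ← Equiv.sum_comp e]
      refine Finset.sum_congr rfl fun f _ => ?_
      simp only [w', Equiv.symm_apply_apply, map_prod]
      congr 1
      refine Finset.prod_congr rfl fun b _ => ?_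
      refine Fin.cases ?_ (fun j => ?_) (f b)
      · simp
      · simp
    · rw [hcomp]
      exact hE0 _ ((hgE (F i)).2 (Ideal.subset_span ⟨i, rfl⟩))
    · rw [hcomp]
      exact hG0
  · refine hall L c l ?_ hc
    rintro _ ⟨i, rfl⟩
    exact hz i

theorem rootsFinite_of {n : ℕ} {I : Ideal (MvPolynomial (Fin n) ℂ)} (hI : I.IsPrime) (d : ℕ)
    (hd : 1 ≤ d) (h : SmallImages d I) : RootsFinite I := by
  classical
  intro r
  obtain ⟨G, hG, hall⟩ := h n I hI X 1 (fun i => (totalDegree_X i).le)
    (fun H => by rw [aeval_X_left_apply]) r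
  refine ⟨G, hG, fun e V => ?_⟩
  have halg : Algebra.IsAlgebraic ℚ Qbar := AlgebraicClosure.isAlgebraic ℚ
  let ι : Qbar →+* ℂ := (IsAlgClosed.lift : Qbar →ₐ[ℚ] ℂ).toRingHom
  refine (Set.finite_of_encard_le_coe (hall ℂ ι V)).subset ?_
  rintro x ⟨z, ⟨q, hq, hz⟩, hx, hI0, hG0⟩
  obtain ⟨y, hy, hyq⟩ := lift_root ι hq hz
  have hpt : (fun a => ∑ j, ι (y ^ e j) * V j a) = x := by
    funext a
    rw [hx a]
    refine Finset.sum_congr rfl fun j _ => ?_
    rw [map_zpow₀, hy]
  refine ⟨fun j => y ^ e j, ?_, fun H hH => ?_, ?_, ?_⟩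
  · rw [height_tors (Fin.cons 1 (fun j => y ^ e j) : Fin (r + 1) → Qbar) q hq fun j => by
      refine Fin.cases ?_ (fun j => ?_) j
      · simp
      · rw [Fin.cons_succ, ← zpow_natCast, ← zpow_mul, mul_comm, zpow_mul, zpow_natCast, hyq,
          one_zpow]]
    exact eps_pos d 1 r hd
  · rw [hpt, ← ev]
    exact hI0 H hH
  · rw [hpt, ← ev]
    exact hG0
  · rw [hpt]
    funext i
    rw [aeval_X]

theorem gmThin_of {n : ℕ} {I : Ideal (MvPolynomial (Fin n) ℂ)} (h : RootsFinite I) :
    GmThin (cl I) (X 0) := by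
  classical
  intro N
  obtain ⟨G0, hG0, hall⟩ := h (N + 1)
  have hhom : (X 0 * hmg G0.totalDegree G0 : MvPolynomial (Fin (n + 1)) ℂ).IsHomogeneous
      (1 + G0.totalDegree) := (isHomogeneous_X ℂ 0).mul (hmg_homog _ _ le_rfl)
  have hdh : dh (X 0 * hmg G0.totalDegree G0) = G0 := by
    have h2 := dh_hmg (F := G0) le_rfl
    unfold dh at h2 ⊢
    rw [map_mul, aeval_X, Fin.cons_zero, one_mul]
    exact h2
  refine ⟨X 0 * hmg G0.totalDegree G0, ⟨_, hhom⟩, fun h1 => ?_, fun P hP t => ?_⟩
  · rw [mem_cl hhom, hdh] at h1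
    exact hG0 h1
  by_contra ht
  obtain ⟨c, k, hc, hck⟩ := hP.off
  rw [aeval_X] at hck
  have hS := hall (fun j => ((j : ℕ) : ℤ) - k) (fun j a => (P a.succ).coeff j / c)
  refine curve_infinite hP ht roots_infinite ((hS.image fun x =>
    Projectivization.mk ℂ (Fin.cons 1 x : Fin (n + 1) → ℂ) (cons_ne x)).subset ?_)
  rintro p ⟨z, ⟨q, hq, hzq⟩, h0, h1, rfl⟩
  have hz0 : z ≠ 0 := by
    rintro rfl
    rw [zero_pow hq.ne'] at hzq
    exact zero_ne_one hzq
  have hP0 : (P 0).eval z = c * z ^ k := by
    rw [hck]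
    simp
  have hP0' : (P 0).eval z ≠ 0 := by
    rw [hP0]
    exact mul_ne_zero hc (pow_ne_zero _ hz0)
  let x : Fin n → ℂ := fun a => (P a.succ).eval z / (P 0).eval z
  have hPx : (fun j => (P j).eval z) =
      fun j => (P 0).eval z * (Fin.cons 1 x : Fin (n + 1) → ℂ) j := by
    funext j
    refine Fin.cases ?_ (fun a => ?_) j
    · simp
    · simp only [Fin.cons_succ, x]
      field_simp
  refine ⟨x, ⟨z, ⟨q, hq, hzq⟩, fun a => ?_, fun H hH => ?_, ?_⟩, ?_⟩
  · show (P a.succ).eval z / (P 0).eval z = _
    rw [hP0, Polynomial.eval_eq_sum_range' (n := N + 1) (by have := hP.deg a.succ; omega),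
      ← Fin.sum_univ_eq_sum_range (fun j => (P a.succ).coeff j * z ^ j), Finset.sum_div]
    refine Finset.sum_congr rfl fun j _ => ?_
    rw [zpow_sub₀ hz0, zpow_natCast, zpow_natCast]
    field_simp
  · have h2 := hP.mem (hmg H.totalDegree H) ((hmg_mem_cl le_rfl).2 hH) ⟨_, hmg_homog _ _ le_rfl⟩
    have h3 := congrArg (fun p => Polynomial.eval z p) h2
    simp only [Polynomial.eval_zero] at h3
    rw [Pool.Agent.V1153.UG.eval_aeval, hPx, ev, aeval_homog (hmg_homog H.totalDegree H le_rfl),
      hmg_one _ _ le_rfl] at h3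
    rw [ev]
    exact (mul_eq_zero.1 h3).resolve_left (pow_ne_zero _ hP0')
  · rw [hPx, ev, aeval_homog hhom, ← dh_aeval, hdh] at h1
    rw [ev]
    exact right_ne_zero_of_mul h1
  · show Projectivization.mk ℂ (Fin.cons 1 x : Fin (n + 1) → ℂ) (cons_ne x) =
      Projectivization.mk ℂ _ h0
    rw [eq_comm, Projectivization.mk_eq_mk_iff']
    exact ⟨(P 0).eval z, hPx.symm⟩

/-- Let `U` be the integral affine variety over `ℂ` given by the polynomials `F_i` of degree at most
`d`. Then `U` is not dominated by punctured lines if and only if for all dominant morphisms `W → U`,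
given by polynomials of degree at most `δ`, and all `r` the points of `W` over arbitrary fields
outside of one proper closed subset which are combinations of `r` arbitrary vectors with algebraic
multipliers `t_j`, `h(1 : t_1 : … : t_r) < eps d δ r`, have at most `B d δ r` images in `U`; and this
is equivalent to the property that for every `r` there is one proper closed subset of `U` outside of
which, for all integers `e_j` and complex vectors `V_j`, there are only finitely many points
`∑ ζ ^ e_j V_j`, `ζ` a root of unity. This holds if `U` satisfies one of the conditions 2-5 of the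
problem (condition 3 only for `(Y, y) = (ℂˣ, 1)`, condition 5 only for `C = ℂˣ`); `cl` is the
homogeneous ideal of the closure of `U`, and `X 0 = 0` is the hyperplane at infinity. -/
theorem result {n N : ℕ} (F : Fin N → MvPolynomial (Fin n) ℂ) (d : ℕ) (hd : 1 ≤ d)
    (hF : ∀ i, (F i).totalDegree ≤ d) (hI : (Ideal.span (Set.range F)).IsPrime) :
    (∀ δ r, 0 < eps d δ r) ∧
    List.TFAE [¬ GmUniruled (Ideal.span (Set.range F)), SmallImages d (Ideal.span (Set.range F)),
      RootsFinite (Ideal.span (Set.range F))] ∧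
    (PseudoBrody (cl (Ideal.span (Set.range F))) (X 0) ∨
      PseudoGeometric (cl (Ideal.span (Set.range F))) (X 0) ∨
      (∃ (K : Type) (_ : Field K) (_ : Algebra ℂ K) (w : ℕ) (y : Fin (n + 1) → K),
        FunField (cl (Ideal.span (Set.range F))) (X 0) K w y ∧
          LogGeneralType ℂ K w (OffQ (X 0) 1 y)) ∨
      BoundedGm (cl (Ideal.span (Set.range F))) (X 0) →
      ¬ GmUniruled (Ideal.span (Set.range F))) := by
  refine ⟨fun δ r => eps_pos d δ r hd, ?_, fun h h1 => ?_⟩
  · tfae_have 1 → 2 := smallImages_of F d hd hF hI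
    tfae_have 2 → 3 := rootsFinite_of hI d hd
    tfae_have 3 → 1 := fun h h1 => not_ruled_of_thin (gmThin_of h) (gmRuled_of h1)
    tfae_finish
  · have h2 := (mor_tfae (cl_prime hI) (isHomogeneous_X ℂ (0 : Fin (n + 1)))).2
    refine absurd (gmRuled_of h1) ?_
    rcases h with h | h | ⟨K, _, _, w, y, hy, hL⟩ | h
    · exact h2 (Or.inl h)
    · exact h2 (Or.inr (Or.inl h))
    · exact not_ruled_of_lgt (isHomogeneous_X ℂ (0 : Fin (n + 1))) hy hL
    · exact h2 (Or.inr (Or.inr h))

end Pool.Agent.Results.MP_c69980_ag.SmallMultiplierMaps
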