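import Pool.Agent.V1153.PK.VM

/-!
# Hyperbolic embedding modulo a proper closed subset for very general boundaries

Let `V` be an irreducible projective variety of dimension at most `m`, with the homogeneous ideal `I`,
in the projective space of dimension `n`, and let `D` be the union of very general hypersurface
sections `F_i = 0` of `V` of degrees `d_i` with `d_1 + ... + d_q ≥ 2 m`. Let `X` be the complement of
`D` in `V`.

`DCxQ (homs I) (∏ i, F i) s r e δ`: the holomorphic maps from the unit disc to `X` of complexity at
most `(s, r, e, δ)`: in some open set the homogeneous coordinates and `1 / ∏ F_i` of them, up to a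
common factor, are polynomials of degree at most `e` in each of the functions `z`, `1 / q(z)` and the
entries of the solutions `y_1, ..., y_s` of iterated systems of `r` linear differential equations, and
`q` is a polynomial of degree at most `δ`.

`BddOff H γ 𝒟`: for each `c > 0` the Fubini-Study norms of the derivatives at the centre are bounded
for the discs `f` in `𝒟` with `|H(f(0))| ≥ c |f(0)| ^ γ`, that is, with centres in compact subsets of
the complement of `H = 0` in `V`; these compact subsets may meet the boundary `D`.
-/

set_option autoImplicit false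

namespace Pool.Agent.Results.MP_c69980_ag.VeryGeneralBoundary

open MvPolynomial Pool.Agent.V1153.UG Pool.Agent.V1153.KB
open Pool.Agent.TH182.VD (CI)
open Pool.Agent.TH143.GT (FunField)
open Pool.Agent.W602.GT (LogGeneralType)
open Pool.Agent.W603.GR (OffQ)

/-- Let `V` be an irreducible projective variety of dimension at most `m` with the homogeneous ideal
`I`. There is a countable subfield `k₁` of the complex numbers such that for all forms `F_1, ..., F_q`
of degrees `d_1, ..., d_q` all of whose coefficients together are algebraically independent over `k₁`,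
if `d_1 + ... + d_q ≥ 2 m`, the following are equivalent for the complement `X` of the hypersurfaces
`F_i = 0` in `V`: `X` is not covered by curves of the punctured line; for all `(s, r, e, δ)` there is
a form `H` which does not vanish on `V` such that the derivatives of the discs of complexity
`(s, r, e, δ)` in `X` with centres in compact subsets of the complement of `H = 0` in `V` are bounded.
These properties hold if `X` is of log general type. -/
theorem result {n m : ℕ} {I : Ideal (MvPolynomial (Fin (n + 1)) ℂ)} (hI : I.IsPrime)
    (hdim : Algebra.trdeg ℂ (MvPolynomial (Fin (n + 1)) ℂ ⧸ Ideal.span (homs I)) ≤ m + 1) :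
    ∃ k₁ : Subfield ℂ, Countable k₁ ∧ ∀ (q : ℕ) (d : Fin q → ℕ)
      (F : Fin q → MvPolynomial (Fin (n + 1)) ℂ), (∀ i, (F i).IsHomogeneous (d i)) →
      AlgebraicIndependent k₁ (fun x : CI n d => coeff x.2.1 (F x.1)) → 2 * m ≤ ∑ i, d i →
        (¬ GmRuled I (∏ i, F i) ↔ ∀ s r e δ : ℕ,
          ∃ (H : MvPolynomial (Fin (n + 1)) ℂ) (γ : ℕ), H.IsHomogeneous γ ∧ H ∉ I ∧
            BddOff H γ (DCxQ (homs I) (∏ i, F i) s r e δ)) ∧
        ((∃ (K : Type) (_ : Field K) (_ : Algebra ℂ K) (w : ℕ) (y : Fin (n + 1) → K),
            FunField I (∏ i, F i) K w y ∧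
              LogGeneralType ℂ K w (OffQ (∏ i, F i) (∑ i, d i) y)) →
          ¬ GmRuled I (∏ i, F i)) := by
  obtain ⟨k₁, hk₁, h⟩ := vg_mod hI hdim
  refine ⟨k₁, hk₁, fun q d F hF hind hd => ?_⟩
  have hQ : (∏ i, F i).IsHomogeneous (∑ i, d i) :=
    MvPolynomial.IsHomogeneous.prod _ _ _ fun i _ => hF i
  refine ⟨⟨fun hr => h q d F hF hind hd hr, fun hB => ?_⟩, ?_⟩
  · rw [pseudoQ_iff hI hQ]
    intro s r e δ
    obtain ⟨H, γ, hH, hHI, hb⟩ := hB s r e δ
    exact ⟨H, γ, hH, hHI, hb.mul hQ fun f hf => hf.1.ne 0 (Metric.mem_ball_self one_pos)⟩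
  · rintro ⟨K, _, _, w, y, hy, hL⟩
    exact not_ruled_of_lgt hQ hy hL

end Pool.Agent.Results.MP_c69980_ag.VeryGeneralBoundary
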